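import Pool.Agent.U606.SF.Glue
import Pool.Agent.H63Fed.Miranda

set_option autoImplicit false

/-!
Every factor of the time-one map which separates two points over the same point of the circle has
infinite topological entropy.
-/

open Set Filter Topology Dynamics Uniformity

namespace Pool.Agent.U606.SF

/-- A continuous function on `K` depends up to `ε` only on the values on a bounded interval. -/
theorem exists_window (G : K → ℝ) (hG : Continuous G) {ε : ℝ} (hε : 0 < ε) :
    ∃ L : ℝ, 0 ≤ L ∧ ∀ g g' : K, (∀ x, |x| ≤ L → g.1 x = g'.1 x) → |G g - G g'| < ε := by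
  let D : Set (K × K) := {p | ε ≤ |G p.1 - G p.2|}
  have hD : IsCompact D := by
    refine IsClosed.isCompact ?_
    exact isClosed_le continuous_const (by fun_prop)
  let O : ℕ → Set (K × K) := fun n => {p | ∃ x : ℝ, |x| ≤ n ∧ p.1.1 x ≠ p.2.1 x}
  have hO : ∀ n, IsOpen (O n) := by
    intro n
    have e : O n = ⋃ (x : ℝ) (_ : |x| ≤ n), {p : K × K | p.1.1 x ≠ p.2.1 x} := by
      ext p
      simp only [O, mem_ofPred_eq, mem_iUnion, exists_prop]
    rw [e]
    refine isOpen_iUnion fun x => isOpen_iUnion fun _ => ?_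
    exact isOpen_ne_fun ((continuous_eval x).comp continuous_fst)
      ((continuous_eval x).comp continuous_snd)
  have hmono : Directed (· ⊆ ·) O := by
    refine directed_of_isDirected_le ?_
    rintro m n hmn p ⟨x, hx, hp⟩
    exact ⟨x, hx.trans (by exact_mod_cast hmn), hp⟩
  have hcov : D ⊆ ⋃ n, O n := by
    rintro ⟨g, g'⟩ hp
    have hne : g ≠ g' := by
      rintro rfl
      have hp' : ε ≤ |G g - G g| := hp
      rw [sub_self, abs_zero] at hp'
      linarith
    have : ∃ x, g.1 x ≠ g'.1 x := by
      by_contra hcon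
      push Not at hcon
      exact hne (Subtype.ext (funext hcon))
    obtain ⟨x, hx⟩ := this
    obtain ⟨n, hn⟩ := exists_nat_ge |x|
    exact mem_iUnion.2 ⟨n, x, hn, hx⟩
  obtain ⟨n, hn⟩ := hD.elim_directed_cover O hO hcov hmono
  refine ⟨n, Nat.cast_nonneg n, fun g g' h => ?_⟩
  by_contra hcon
  obtain ⟨x, hx, hne⟩ := hn (show (g, g') ∈ D from not_lt.1 hcon)
  exact hne (h x hx)

/-- Realisation of arbitrary sequences of values. -/
theorem realize (G : K → ℝ) (hG : Continuous G) (g₀ g₁ : K) (h0 : G g₀ = 0) (h1 : G g₁ = 1) :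
    ∃ N : ℕ, 0 < N ∧ ∀ (k : ℕ) (v : Fin k → ℝ), (∀ i, v i ∈ Icc (1 / 4 : ℝ) (3 / 4)) →
      ∃ z : K, ∀ i : Fin k, G (shift ((i : ℕ) * N) z) = v i := by
  obtain ⟨L, hL, hw⟩ := exists_window G hG (ε := 1 / 4) (by norm_num)
  obtain ⟨N, hN⟩ := exists_nat_ge (2 * L + 1)
  have hN0 : 0 < N := by
    have : (0 : ℝ) < N := by linarith
    exact_mod_cast this
  refine ⟨N, hN0, fun k v hv => ?_⟩
  have hclose : ∀ (t : Fin k → ℝ) (i : Fin k) (g : K),
      (∀ x, comb g₀ g₁ (t i) x = g.1 x) →
      |G (shift ((i : ℕ) * N) (glueK g₀ g₁ L N t)) - G g| < 1 / 4 := by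
    intro t i g hg
    apply hw
    intro x hx
    rw [shift_apply, ← hg x]
    exact glue_eq g₀ g₁ hL hN t i hx
  let F : (Fin k → ℝ) → (Fin k → ℝ) := fun t i =>
    G (shift ((i : ℕ) * N) (glueK g₀ g₁ L N t)) - v i
  have hF : Continuous F := by
    refine continuous_pi fun i => ?_
    have h2 : Continuous (fun t : Fin k → ℝ => shift ((i : ℕ) * N) (glueK g₀ g₁ L N t)) := by
      have h3 : Continuous (fun t : Fin k → ℝ => (((i : ℕ) * N : ℝ), glueK g₀ g₁ L N t)) :=
        continuous_const.prodMk (continuous_glueK g₀ g₁ L N)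
      exact continuous_shift.comp h3
    exact (hG.comp h2).sub continuous_const
  obtain ⟨t, _, ht⟩ := H63Fed.Miranda.poincare_miranda k F hF.continuousOn
    (by
      intro t _ i hi
      have h2 := hclose t i g₀ (by intro x; rw [hi, comb, cu_zero]; ring)
      rw [h0] at h2
      have h3 := (abs_lt.1 h2).2
      have h4 := (hv i).1
      show G (shift ((i : ℕ) * N) (glueK g₀ g₁ L N t)) - v i ≤ 0
      linarith)
    (by
      intro t _ i hi
      have h2 := hclose t i g₁ (by intro x; rw [hi, comb, cu_one]; ring)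
      rw [h1] at h2
      have h3 := (abs_lt.1 h2).1
      have h4 := (hv i).2
      show 0 ≤ G (shift ((i : ℕ) * N) (glueK g₀ g₁ L N t)) - v i
      linarith)
  refine ⟨glueK g₀ g₁ L N t, fun i => ?_⟩
  have h2 := congrFun ht i
  have h3 : G (shift ((i : ℕ) * N) (glueK g₀ g₁ L N t)) - v i = 0 := h2
  linarith

universe u

theorem iterate_factor {Y : Type u} {S : Y → Y} {π : X → Y} (h : ∀ x, π (flow 1 x) = S (π x))
    (n : ℕ) (x : X) : S^[n] (π x) = π (flow n x) := by
  induction n with
  | zero => simp
  | succ n ih =>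
    rw [Function.iterate_succ_apply', ih, ← h, ← Flow.map_add]
    congr 2
    push_cast
    ring

theorem flow_nat (n : ℕ) (x : X) : flow n x = (shift n x.1, x.2) := by
  rw [flow_apply]
  refine Prod.ext rfl ?_
  show x.2 + (((n : ℕ) : ℝ) : UnitAddCircle) = x.2
  have h : (((n : ℕ) : ℝ) : UnitAddCircle) = 0 := by
    rw [AddCircle.coe_eq_zero_iff]
    exact ⟨n, by simp⟩
  rw [h, add_zero]

/-- The main estimate: a factor of the time-one map separating two points over the same point of
the circle has infinite entropy. -/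
theorem entropy_top {Y : Type u} [UniformSpace Y] [CompactSpace Y] [T2Space Y] {S : Y → Y}
    {π : X → Y} (hπ : Continuous π) (h : ∀ x, π (flow 1 x) = S (π x)) {w w' : X}
    (hc : w.2 = w'.2) (hne : π w ≠ π w') : coverEntropy S univ = ⊤ := by
  obtain ⟨g₀, θ⟩ := w
  obtain ⟨g₁, θ'⟩ := w'
  have hc' : θ = θ' := hc
  subst hc'
  -- a function on `Y`
  obtain ⟨f, hf0, hf1, hf⟩ := exists_continuous_zero_one_of_isClosed
    (isClosed_singleton (x := π (g₀, θ))) (isClosed_singleton (x := π (g₁, θ)))
    (by rw [disjoint_singleton]; exact hne)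
  have hf0' : f (π (g₀, θ)) = 0 := hf0 (mem_singleton _)
  have hf1' : f (π (g₁, θ)) = 1 := hf1 (mem_singleton _)
  have hG : Continuous (fun g : K => f (π (g, θ))) :=
    f.continuous.comp (hπ.comp (by fun_prop))
  obtain ⟨N, hN, hreal⟩ := realize (fun g : K => f (π (g, θ))) hG g₀ g₁ hf0' hf1'
  -- lower bound for the entropy at every scale
  have key : ∀ M : ℕ, 0 < M → ENNReal.log ((M + 1 : ℕ) : ENNReal) ≤ N * coverEntropy S univ := by
    intro M hM
    have hMR : (0 : ℝ) < M := by exact_mod_cast hM
    let U : SetRel Y Y := {p | dist (f p.1) (f p.2) < 1 / (4 * M)}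
    have hU : U ∈ 𝓤 Y := by
      have hu : UniformContinuous f := CompactSpace.uniformContinuous_of_continuous f.continuous
      exact hu (Metric.dist_mem_uniformity (by positivity : (0 : ℝ) < 1 / (4 * M)))
    have hcard : ∀ k : ℕ, (((M + 1) ^ k : ℕ) : ℕ∞) ≤ netMaxcard S univ U (N * k) := by
      intro k
      have hz : ∀ a : Fin k → Fin (M + 1), ∃ z : K, ∀ i : Fin k,
          f (π (shift ((i : ℕ) * N) z, θ)) = 1 / 4 + (a i : ℕ) / (2 * M) := by
        intro a
        obtain ⟨z, hz⟩ := hreal k (fun i => 1 / 4 + (a i : ℕ) / (2 * M)) (fun i => by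
          have h1 : ((a i : ℕ) : ℝ) ≤ M := by
            have := (a i).2
            exact_mod_cast Nat.lt_succ_iff.1 this
          constructor
          · have : (0 : ℝ) ≤ ((a i : ℕ) : ℝ) / (2 * M) := by positivity
            linarith
          · have : ((a i : ℕ) : ℝ) / (2 * M) ≤ 1 / 2 := by
              rw [div_le_iff₀ (by positivity)]
              linarith
            linarith)
        exact ⟨z, hz⟩
      choose z hz using hz
      have hval : ∀ (a : Fin k → Fin (M + 1)) (i : Fin k),
          f (S^[(i : ℕ) * N] (π (z a, θ))) = 1 / 4 + (a i : ℕ) / (2 * M) := by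
        intro a i
        rw [iterate_factor h, flow_nat]
        have := hz a i
        push_cast
        exact this
      -- the points are separated
      have hsep : ∀ a b : Fin k → Fin (M + 1), a ≠ b → ∀ y : Y,
          y ∈ UniformSpace.ball (π (z a, θ)) (dynEntourage S U (N * k)) →
          y ∈ UniformSpace.ball (π (z b, θ)) (dynEntourage S U (N * k)) → False := by
        intro a b hab y hya hyb
        obtain ⟨i, hi⟩ : ∃ i, a i ≠ b i := by
          by_contra hcon
          push Not at hcon
          exact hab (funext hcon)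
        have hlt : (i : ℕ) * N < N * k := by
          rw [mul_comm]
          exact Nat.mul_lt_mul_of_pos_left i.2 hN
        have h1 := mem_ball_dynEntourage.1 hya _ hlt
        have h2 := mem_ball_dynEntourage.1 hyb _ hlt
        have h1' : dist (f (S^[(i : ℕ) * N] (π (z a, θ)))) (f (S^[(i : ℕ) * N] y)) < 1 / (4 * M) :=
          h1
        have h2' : dist (f (S^[(i : ℕ) * N] (π (z b, θ)))) (f (S^[(i : ℕ) * N] y)) < 1 / (4 * M) :=
          h2
        rw [hval, Real.dist_eq] at h1' h2'
        have h3 : |(1 / 4 + ((a i : ℕ) : ℝ) / (2 * M)) - (1 / 4 + ((b i : ℕ) : ℝ) / (2 * M))| <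
            1 / (2 * M) := by
          have h4 := abs_sub_le (1 / 4 + ((a i : ℕ) : ℝ) / (2 * M)) (f (S^[(i : ℕ) * N] y))
            (1 / 4 + ((b i : ℕ) : ℝ) / (2 * M))
          rw [abs_sub_comm (f (S^[(i : ℕ) * N] y))] at h4
          have h5 : (1 : ℝ) / (2 * M) = 1 / (4 * M) + 1 / (4 * M) := by
            field_simp
            norm_num
          rw [h5]
          linarith
        have h4 : (1 / 4 + ((a i : ℕ) : ℝ) / (2 * M)) - (1 / 4 + ((b i : ℕ) : ℝ) / (2 * M)) =
            (((a i : ℕ) : ℝ) - ((b i : ℕ) : ℝ)) / (2 * M) := by ring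
        rw [h4, abs_div, abs_of_pos (by positivity : (0 : ℝ) < 2 * M),
          div_lt_div_iff_of_pos_right (by positivity)] at h3
        have h5 : ((a i : ℕ) : ℤ) - ((b i : ℕ) : ℤ) ≠ 0 := by
          intro h6
          apply hi
          apply Fin.ext
          omega
        have h6 := Int.one_le_abs h5
        have h7 : (1 : ℝ) ≤ |((a i : ℕ) : ℝ) - ((b i : ℕ) : ℝ)| := by exact_mod_cast h6
        linarith
      classical
      have hinj : Function.Injective (fun a : Fin k → Fin (M + 1) => π (z a, θ)) := by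
        intro a b hab
        by_contra hne'
        have hrefl : ∀ y : Y, y ∈ UniformSpace.ball y (dynEntourage S U (N * k)) := by
          intro y
          rw [mem_ball_dynEntourage]
          intro i _
          show dist (f (S^[i] y)) (f (S^[i] y)) < 1 / (4 * M)
          rw [dist_self]
          positivity
        refine hsep a b hne' (π (z a, θ)) (hrefl _) ?_
        have hab' : π (z a, θ) = π (z b, θ) := hab
        rw [hab']
        exact hrefl _
      let s : Finset Y := (Finset.univ : Finset (Fin k → Fin (M + 1))).image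
        (fun a => π (z a, θ))
      have hs : s.card = (M + 1) ^ k := by
        rw [Finset.card_image_of_injective _ hinj]
        simp
      have hnet : IsDynNetIn S univ U (N * k) (s : Set Y) := by
        refine ⟨subset_univ _, ?_⟩
        intro x hx y hy hxy
        obtain ⟨a, _, rfl⟩ := Finset.mem_image.1 (Finset.mem_coe.1 hx)
        obtain ⟨b, _, rfl⟩ := Finset.mem_image.1 (Finset.mem_coe.1 hy)
        refine disjoint_left.2 fun p hp hp' => ?_
        exact hsep a b (fun hab => hxy (by rw [hab])) p hp hp'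
      rw [← hs]
      exact hnet.card_le_netMaxcard
    have hmono : Monotone (fun n : ℕ => ((netMaxcard S univ U n : ℕ∞) : ENNReal)) :=
      fun _ _ hmn => ENat.toENNReal_mono (netMaxcard_monotone_time S univ U hmn)
    have h1 := hmono.expGrowthSup_comp_mul (m := N) hN.ne'
    have h2 : ExpGrowth.expGrowthSup (fun k : ℕ => (((M + 1 : ℕ) : ENNReal)) ^ k) ≤
        ExpGrowth.expGrowthSup (fun k : ℕ => ((netMaxcard S univ U (N * k) : ℕ∞) : ENNReal)) := by
      refine ExpGrowth.expGrowthSup_monotone fun k => ?_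
      have h3 := ENat.toENNReal_mono (hcard k)
      simpa using h3
    rw [ExpGrowth.expGrowthSup_pow] at h2
    refine h2.trans ?_
    rw [h1]
    refine mul_le_mul_of_nonneg_left ?_ (by positivity)
    exact netEntropyEntourage_le_coverEntropy S univ hU
  -- conclusion
  by_contra hcon
  have hlt : (N : EReal) * coverEntropy S univ < ⊤ := by
    have h0 : (0 : EReal) ≤ coverEntropy S univ := coverEntropy_nonneg S ⟨π (g₀, θ), mem_univ _⟩
    induction hE : coverEntropy S univ with
    | bot => rw [hE] at h0; exact absurd h0 (by simp)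
    | top => exact absurd hE hcon
    | coe r =>
      have : ((N : ℕ) : EReal) * (r : EReal) = (((N : ℝ) * r : ℝ) : EReal) := by
        push_cast
        rfl
      rw [this]
      exact EReal.coe_lt_top _
  have hex : ∃ M : ℕ, 0 < M ∧ (N : EReal) * coverEntropy S univ <
      ENNReal.log ((M + 1 : ℕ) : ENNReal) := by
    obtain ⟨r, hr⟩ : ∃ r : ℝ, (N : EReal) * coverEntropy S univ < r := by
      obtain ⟨r, hr, _⟩ := EReal.lt_iff_exists_real_btwn.1 hlt
      exact ⟨r, hr⟩
    obtain ⟨M, hM⟩ := exists_nat_gt (max (Real.exp r) 1)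
    refine ⟨M, ?_, hr.trans_le ?_⟩
    · have : (0 : ℝ) < M := lt_of_lt_of_le (by positivity) hM.le
      exact_mod_cast this
    · have h1 : (r : EReal) = ENNReal.log (EReal.exp r) := by
        rw [EReal.log_exp]
      rw [h1]
      refine ENNReal.log_monotone ?_
      rw [EReal.exp_coe]
      rw [← ENNReal.ofReal_natCast]
      refine ENNReal.ofReal_le_ofReal ?_
      have := (le_max_left (Real.exp r) 1).trans hM.le
      push_cast
      linarith
  obtain ⟨M, hM, hM'⟩ := hex
  exact absurd (key M hM) (not_le.2 hM')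

end Pool.Agent.U606.SF
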