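import Pool.Agent.U606.SF.Space

set_option autoImplicit false

/-!
Gluing of finitely many convex combinations of two `1`-Lipschitz functions on windows which are
at distance at least one from each other.
-/

open Set Filter Topology

namespace Pool.Agent.U606.SF

/-- Clamping to `[-L, L]`. -/
noncomputable def cl (L x : ℝ) : ℝ := max (-L) (min L x)

theorem cl_mem {L : ℝ} (hL : 0 ≤ L) (x : ℝ) : |cl L x| ≤ L := by
  unfold cl
  rw [abs_le]
  refine ⟨le_max_left _ _, max_le (by linarith) (min_le_left _ _)⟩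

theorem cl_of_mem {L x : ℝ} (h : |x| ≤ L) : cl L x = x := by
  unfold cl
  rw [abs_le] at h
  rw [min_eq_right h.2, max_eq_right h.1]

theorem cl_lip (L x y : ℝ) : |cl L x - cl L y| ≤ |x - y| := by
  unfold cl
  refine (abs_max_sub_max_le_max _ _ _ _).trans ?_
  rw [sub_self, abs_zero]
  refine max_le (abs_nonneg _) ?_
  refine (abs_min_sub_min_le_max _ _ _ _).trans ?_
  rw [sub_self, abs_zero]
  exact max_le (abs_nonneg _) le_rfl

/-- Clamping of a parameter to `[0, 1]`. -/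
noncomputable def cu (s : ℝ) : ℝ := max 0 (min 1 s)

theorem cu_nonneg (s : ℝ) : 0 ≤ cu s := le_max_left _ _

theorem cu_le_one (s : ℝ) : cu s ≤ 1 := max_le (by norm_num) (min_le_left _ _)

theorem cu_zero : cu 0 = 0 := by unfold cu; norm_num

theorem cu_one : cu 1 = 1 := by unfold cu; norm_num

theorem continuous_cu : Continuous cu := by unfold cu; fun_prop

/-- The convex combination of two functions. -/
noncomputable def comb (g₀ g₁ : K) (s x : ℝ) : ℝ := (1 - cu s) * g₀.1 x + cu s * g₁.1 x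

theorem comb_mem (g₀ g₁ : K) (s x : ℝ) : comb g₀ g₁ s x ∈ Icc (0 : ℝ) 1 := by
  have h1 := g₀.2.1 x
  have h2 := g₁.2.1 x
  have h3 := cu_nonneg s
  have h4 := cu_le_one s
  unfold comb
  constructor
  · have := mul_nonneg (sub_nonneg.2 h4) h1.1
    have := mul_nonneg h3 h2.1
    linarith
  · have := mul_le_mul_of_nonneg_left h1.2 (sub_nonneg.2 h4)
    have := mul_le_mul_of_nonneg_left h2.2 h3
    linarith

theorem comb_lip (g₀ g₁ : K) (s x y : ℝ) : |comb g₀ g₁ s x - comb g₀ g₁ s y| ≤ |x - y| := by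
  have h1 := g₀.2.2 x y
  have h2 := g₁.2.2 x y
  have h3 := cu_nonneg s
  have h4 := cu_le_one s
  have e : comb g₀ g₁ s x - comb g₀ g₁ s y =
      (1 - cu s) * (g₀.1 x - g₀.1 y) + cu s * (g₁.1 x - g₁.1 y) := by
    unfold comb; ring
  rw [e]
  refine (abs_add_le _ _).trans ?_
  rw [abs_mul, abs_mul, abs_of_nonneg (sub_nonneg.2 h4), abs_of_nonneg h3]
  have := mul_le_mul_of_nonneg_left h1 (sub_nonneg.2 h4)
  have := mul_le_mul_of_nonneg_left h2 h3
  linarith

/-- The distance function of McShane's extension from the window around `c`. -/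
noncomputable def cone (g₀ g₁ : K) (L s c x : ℝ) : ℝ :=
  comb g₀ g₁ s (cl L (x - c)) + |x - c - cl L (x - c)|

theorem cone_lip (g₀ g₁ : K) (L s c x y : ℝ) :
    |cone g₀ g₁ L s c x - cone g₀ g₁ L s c y| ≤ |x - y| := by
  wlog h : y ≤ x with H
  · rw [abs_sub_comm, abs_sub_comm x y]
    exact H g₀ g₁ L s c y x (le_of_not_ge h)
  have e : cone g₀ g₁ L s c x - cone g₀ g₁ L s c y =
      (comb g₀ g₁ s (cl L (x - c)) - comb g₀ g₁ s (cl L (y - c))) +
      (|x - c - cl L (x - c)| - |y - c - cl L (y - c)|) := by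
    unfold cone; ring
  rw [e]
  refine (abs_add_le _ _).trans ?_
  have h1 := comb_lip g₀ g₁ s (cl L (x - c)) (cl L (y - c))
  have h2 := abs_abs_sub_abs_le_abs_sub (x - c - cl L (x - c)) (y - c - cl L (y - c))
  have h3 : cl L (y - c) ≤ cl L (x - c) := by
    unfold cl
    exact max_le_max_left _ (min_le_min_left _ (by linarith))
  have h4 := cl_lip L (x - c) (y - c)
  have h5 : x - c - (y - c) = x - y := by ring
  rw [h5] at h4
  rw [abs_of_nonneg (sub_nonneg.2 h3)] at h1 h4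
  rw [abs_of_nonneg (sub_nonneg.2 h)] at h4 ⊢
  have h6 : x - c - cl L (x - c) - (y - c - cl L (y - c)) =
    (x - y) - (cl L (x - c) - cl L (y - c)) := by ring
  have h7 : |x - y - (cl L (x - c) - cl L (y - c))| = x - y - (cl L (x - c) - cl L (y - c)) :=
    abs_of_nonneg (by linarith)
  rw [h6, h7] at h2
  linarith

theorem cone_nonneg (g₀ g₁ : K) (L s c x : ℝ) : 0 ≤ cone g₀ g₁ L s c x :=
  add_nonneg (comb_mem g₀ g₁ s _).1 (abs_nonneg _)

theorem cone_eq (g₀ g₁ : K) {L s c x : ℝ} (h : |x - c| ≤ L) :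
    cone g₀ g₁ L s c x = comb g₀ g₁ s (x - c) := by
  unfold cone
  rw [cl_of_mem h, sub_self, abs_zero, add_zero]

theorem one_le_cone (g₀ g₁ : K) {L s c x : ℝ} (hL : 0 ≤ L) (h : L + 1 ≤ |x - c|) :
    1 ≤ cone g₀ g₁ L s c x := by
  have h1 := (comb_mem g₀ g₁ s (cl L (x - c))).1
  have h2 := abs_sub_abs_le_abs_sub (x - c) (cl L (x - c))
  have h3 := cl_mem hL (x - c)
  unfold cone
  linarith

/-- The terms of the gluing. -/
noncomputable def term (g₀ g₁ : K) (L N : ℝ) {k : ℕ} (t : Fin k → ℝ) (x : ℝ) :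
    Option (Fin k) → ℝ
  | none => 1
  | some j => cone g₀ g₁ L (t j) ((j : ℕ) * N) x

/-- The gluing. -/
noncomputable def glue (g₀ g₁ : K) (L N : ℝ) {k : ℕ} (t : Fin k → ℝ) (x : ℝ) : ℝ :=
  (Finset.univ : Finset (Option (Fin k))).inf' ⟨none, Finset.mem_univ _⟩ (term g₀ g₁ L N t x)

theorem glue_mem (g₀ g₁ : K) (L N : ℝ) {k : ℕ} (t : Fin k → ℝ) (x : ℝ) :
    glue g₀ g₁ L N t x ∈ Icc (0 : ℝ) 1 := by
  constructor
  · refine (Finset.le_inf'_iff _ _).2 fun o _ => ?_
    rcases o with _ | j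
    · exact zero_le_one
    · exact cone_nonneg _ _ _ _ _ _
  · exact Finset.inf'_le (term g₀ g₁ L N t x) (Finset.mem_univ none)

theorem term_lip (g₀ g₁ : K) (L N : ℝ) {k : ℕ} (t : Fin k → ℝ) (x y : ℝ) (o : Option (Fin k)) :
    term g₀ g₁ L N t x o ≤ term g₀ g₁ L N t y o + |x - y| := by
  rcases o with _ | j
  · have := abs_nonneg (x - y)
    show (1 : ℝ) ≤ 1 + |x - y|
    linarith
  · have h := cone_lip g₀ g₁ L (t j) ((j : ℕ) * N) x y
    have h2 := (abs_le.1 h).2
    show cone g₀ g₁ L (t j) ((j : ℕ) * N) x ≤ cone g₀ g₁ L (t j) ((j : ℕ) * N) y + |x - y|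
    linarith

theorem glue_le (g₀ g₁ : K) (L N : ℝ) {k : ℕ} (t : Fin k → ℝ) (x y : ℝ) :
    glue g₀ g₁ L N t x ≤ glue g₀ g₁ L N t y + |x - y| := by
  have h : glue g₀ g₁ L N t x - |x - y| ≤ glue g₀ g₁ L N t y := by
    refine (Finset.le_inf'_iff _ _).2 fun o ho => ?_
    have h1 : glue g₀ g₁ L N t x ≤ term g₀ g₁ L N t x o :=
      Finset.inf'_le (term g₀ g₁ L N t x) ho
    have h2 := term_lip g₀ g₁ L N t x y o
    linarith
  linarith

theorem glue_lip (g₀ g₁ : K) (L N : ℝ) {k : ℕ} (t : Fin k → ℝ) (x y : ℝ) :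
    |glue g₀ g₁ L N t x - glue g₀ g₁ L N t y| ≤ |x - y| := by
  rw [abs_le]
  have h1 := glue_le g₀ g₁ L N t x y
  have h2 := glue_le g₀ g₁ L N t y x
  rw [abs_sub_comm y x] at h2
  constructor <;> linarith

/-- The gluing as a point of the space. -/
noncomputable def glueK (g₀ g₁ : K) (L N : ℝ) {k : ℕ} (t : Fin k → ℝ) : K :=
  ⟨glue g₀ g₁ L N t, glue_mem g₀ g₁ L N t, glue_lip g₀ g₁ L N t⟩

theorem glue_eq (g₀ g₁ : K) {L N : ℝ} (hL : 0 ≤ L) (hN : 2 * L + 1 ≤ N) {k : ℕ} (t : Fin k → ℝ)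
    (j : Fin k) {x : ℝ} (h : |x| ≤ L) :
    glue g₀ g₁ L N t (x + (j : ℕ) * N) = comb g₀ g₁ (t j) x := by
  have e : x + (j : ℕ) * N - (j : ℕ) * N = x := by ring
  have h0 : cone g₀ g₁ L (t j) ((j : ℕ) * N) (x + (j : ℕ) * N) = comb g₀ g₁ (t j) x := by
    rw [cone_eq, e]
    rwa [e]
  apply le_antisymm
  · rw [← h0]
    exact Finset.inf'_le (term g₀ g₁ L N t (x + (j : ℕ) * N)) (Finset.mem_univ (some j))
  · refine (Finset.le_inf'_iff _ _).2 fun o _ => ?_
    rcases o with _ | i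
    · exact (comb_mem g₀ g₁ (t j) x).2
    · by_cases hij : i = j
      · subst hij
        exact h0.symm.le
      · refine (comb_mem g₀ g₁ (t j) x).2.trans (one_le_cone g₀ g₁ hL ?_)
        have h1 : x + (j : ℕ) * N - (i : ℕ) * N = ((j : ℕ) - (i : ℕ) : ℝ) * N + x := by ring
        rw [h1]
        have h2 : (1 : ℝ) ≤ |((j : ℕ) - (i : ℕ) : ℝ)| := by
          have h3 : ((j : ℕ) : ℤ) - ((i : ℕ) : ℤ) ≠ 0 := by
            intro h4
            apply hij
            apply Fin.ext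
            omega
          have h4 := Int.one_le_abs h3
          exact_mod_cast h4
        have h5 : N ≤ |((j : ℕ) - (i : ℕ) : ℝ) * N| := by
          rw [abs_mul, abs_of_nonneg (by linarith : (0:ℝ) ≤ N)]
          nlinarith
        have h6 := abs_sub_abs_le_abs_sub (((j : ℕ) - (i : ℕ) : ℝ) * N) (-x)
        rw [abs_neg, sub_neg_eq_add] at h6
        linarith

theorem continuous_glueK (g₀ g₁ : K) (L N : ℝ) {k : ℕ} :
    Continuous (fun t : Fin k → ℝ => glueK g₀ g₁ L N t) := by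
  refine Continuous.subtype_mk (continuous_pi fun x => ?_) _
  have h : ∀ o ∈ (Finset.univ : Finset (Option (Fin k))),
      Continuous (fun t : Fin k → ℝ => term g₀ g₁ L N t x o) := by
    intro o _
    rcases o with _ | j
    · exact continuous_const
    · show Continuous (fun t : Fin k → ℝ => cone g₀ g₁ L (t j) ((j : ℕ) * N) x)
      unfold cone comb
      have : Continuous (fun t : Fin k → ℝ => cu (t j)) := continuous_cu.comp (continuous_apply j)
      fun_prop
  exact Continuous.finset_inf'_apply ⟨none, Finset.mem_univ _⟩ h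

end Pool.Agent.U606.SF
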