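import Mathlib

set_option autoImplicit false

/-!
The space of all `1`-Lipschitz functions from the line to `[0,1]` with the topology of pointwise
convergence, and its translation flow.
-/

open Set Filter Topology

namespace Pool.Agent.U606.SF

/-- The `1`-Lipschitz functions from the line to `[0,1]`. -/
def LipSet : Set (ℝ → ℝ) :=
  {g | (∀ x, g x ∈ Icc (0 : ℝ) 1) ∧ ∀ x y, |g x - g y| ≤ |x - y|}

/-- The space of the `1`-Lipschitz functions from the line to `[0,1]`, with the topology of
pointwise convergence. -/
abbrev K : Type := LipSet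

theorem isClosed_lipSet : IsClosed LipSet := by
  have h1 : IsClosed {g : ℝ → ℝ | ∀ x, g x ∈ Icc (0 : ℝ) 1} := by
    simp only [ofPred_forall]
    exact isClosed_iInter fun x => isClosed_Icc.preimage (continuous_apply x)
  have h2 : IsClosed {g : ℝ → ℝ | ∀ x y, |g x - g y| ≤ |x - y|} := by
    simp only [ofPred_forall]
    refine isClosed_iInter fun x => isClosed_iInter fun y => ?_
    exact isClosed_le (by fun_prop) continuous_const
  exact h1.inter h2

instance : CompactSpace K := by
  rw [← isCompact_iff_compactSpace]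
  refine IsCompact.of_isClosed_subset (isCompact_univ_pi (fun _ : ℝ => isCompact_Icc (a := (0:ℝ)) (b := 1)))
    isClosed_lipSet ?_
  intro g hg x _
  exact hg.1 x

theorem continuous_eval (x : ℝ) : Continuous (fun g : K => g.1 x) :=
  (continuous_apply x).comp continuous_subtype_val

theorem continuous_eval₂ : Continuous (fun p : K × ℝ => p.1.1 p.2) := by
  rw [continuous_iff_continuousAt]
  rintro ⟨g₀, x₀⟩
  rw [ContinuousAt, tendsto_iff_dist_tendsto_zero]
  have h1 : ∀ p : K × ℝ, dist (p.1.1 p.2) (g₀.1 x₀) ≤ |p.2 - x₀| + |p.1.1 x₀ - g₀.1 x₀| := by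
    intro p
    rw [Real.dist_eq]
    have h2 : p.1.1 p.2 - g₀.1 x₀ = (p.1.1 p.2 - p.1.1 x₀) + (p.1.1 x₀ - g₀.1 x₀) := by ring
    rw [h2]
    exact (abs_add_le _ _).trans (add_le_add_left (p.1.2.2 _ _) _)
  have h3 : Tendsto (fun p : K × ℝ => |p.2 - x₀| + |p.1.1 x₀ - g₀.1 x₀|) (𝓝 (g₀, x₀)) (𝓝 0) := by
    have h4 : Continuous (fun p : K × ℝ => |p.2 - x₀| + |p.1.1 x₀ - g₀.1 x₀|) := by
      have h5 : Continuous (fun p : K × ℝ => p.1.1 x₀) := (continuous_eval x₀).comp continuous_fst
      fun_prop
    have h6 := h4.tendsto (g₀, x₀)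
    simpa using h6
  exact squeeze_zero (fun _ => dist_nonneg) h1 h3

instance : TopologicalSpace.MetrizableSpace K := by
  have hc : Continuous (fun (g : K) (q : ℚ) => g.1 (q : ℝ)) :=
    continuous_pi fun q => continuous_eval _
  have hi : Function.Injective (fun (g : K) (q : ℚ) => g.1 (q : ℝ)) := by
    intro g g' h
    apply Subtype.ext
    have hg : Continuous g.1 := by
      have := continuous_eval₂.comp (Continuous.prodMk (continuous_const (y := g)) continuous_id)
      exact this
    have hg' : Continuous g'.1 := by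
      have := continuous_eval₂.comp (Continuous.prodMk (continuous_const (y := g')) continuous_id)
      exact this
    refine Continuous.ext_on Rat.denseRange_cast hg hg' ?_
    rintro _ ⟨q, rfl⟩
    exact congrFun h q
  have he := (hc.isClosedEmbedding hi).isEmbedding
  exact he.metrizableSpace

/-- The translate of a function. -/
def shift (t : ℝ) (g : K) : K :=
  ⟨fun x => g.1 (x + t), fun x => g.2.1 _, fun x y => by
    have h := g.2.2 (x + t) (y + t)
    have e : x + t - (y + t) = x - y := by ring
    rwa [e] at h⟩

theorem shift_apply (t : ℝ) (g : K) (x : ℝ) : (shift t g).1 x = g.1 (x + t) := rfl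

theorem continuous_shift : Continuous (fun p : ℝ × K => shift p.1 p.2) := by
  refine Continuous.subtype_mk (continuous_pi fun x => ?_) _
  have : Continuous (fun p : ℝ × K => (p.2, x + p.1)) := by fun_prop
  exact continuous_eval₂.comp this

/-- The phase space: a function and a point of the circle. -/
abbrev X : Type := K × UnitAddCircle

/-- The flow: translation of the function and rotation of the circle. -/
def flow : Flow ℝ X where
  toFun t x := (shift t x.1, x.2 + (t : UnitAddCircle))
  cont' := by
    refine Continuous.prodMk ?_ ?_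
    · exact continuous_shift.comp (Continuous.prodMk continuous_fst
        (continuous_fst.comp continuous_snd))
    · have h1 : Continuous (fun p : ℝ × X => (p.1 : UnitAddCircle)) :=
        (AddCircle.continuous_mk' (1 : ℝ)).comp continuous_fst
      exact (continuous_snd.comp continuous_snd).add h1
  map_add' s t x := by
    refine Prod.ext ?_ ?_
    · apply Subtype.ext
      funext y
      show x.1.1 (y + (s + t)) = x.1.1 (y + s + t)
      rw [add_assoc]
    · show x.2 + ((s + t : ℝ) : UnitAddCircle) = x.2 + (t : UnitAddCircle) + (s : UnitAddCircle)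
      rw [AddCircle.coe_add]
      abel
  map_zero' x := by
    refine Prod.ext ?_ ?_
    · apply Subtype.ext
      funext y
      show x.1.1 (y + 0) = x.1.1 y
      rw [add_zero]
    · show x.2 + ((0 : ℝ) : UnitAddCircle) = x.2
      rw [AddCircle.coe_zero, add_zero]

theorem flow_apply (t : ℝ) (x : X) : flow t x = (shift t x.1, x.2 + (t : UnitAddCircle)) := rfl

theorem no_fixed_point (x : X) : ∃ t : ℝ, flow t x ≠ x := by
  refine ⟨1 / 2, fun h => ?_⟩
  have h1 : x.2 + ((1 / 2 : ℝ) : UnitAddCircle) = x.2 := congrArg Prod.snd h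
  have h2 : ((1 / 2 : ℝ) : UnitAddCircle) = 0 := by
    have := add_eq_left.1 h1
    exact this
  rw [AddCircle.coe_eq_zero_iff] at h2
  obtain ⟨n, hn⟩ := h2
  rw [zsmul_eq_mul, mul_one] at hn
  have h3 : ((2 * n : ℤ) : ℝ) = ((1 : ℤ) : ℝ) := by
    push_cast
    linarith
  have h4 : 2 * n = 1 := by exact_mod_cast h3
  omega

end Pool.Agent.U606.SF
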